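import Mathlib

/-!
# MP_f0d684_an: zero-sector reduction by the multipliers `exp (-α k ^ p)`

The cubic `(z - 1) ^ 3` has all its zeros in every sector.  Its image under the diagonal operator
`exp (-α k ^ p)` has a non-real zero as soon as `p > 2` and `α > 0` is small: its discriminant is a
positive multiple of `4 u v - (u + v - u v) ^ 2`, where `u = 1 - exp (-α A)`, `v = 1 - exp (-α B)`,
`A = 2 ^ p - 2`, `B = 3 ^ p - 2 * 2 ^ p + 1`, and `A < B` for `p > 2`.
-/

set_option autoImplicit false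

namespace Pool.Agent.Results.MP_f0d684_an.SmallAlphaFails

open Polynomial

/-- The closed sector `S(θ)`: the complex numbers `z` with `|arg z| ≤ θ`, and `0`. -/
def Sector (θ : ℝ) : Set ℂ := {z | z = 0 ∨ |z.arg| ≤ θ}

/-- The diagonal operator `z ^ k ↦ g k • z ^ k` on real polynomials. -/
noncomputable def diag (g : ℕ → ℝ) (f : ℝ[X]) : ℝ[X] :=
  f.sum fun k a => monomial k (g k * a)

/-- All complex zeros of the real polynomial `f` lie in `S`. -/
def ZerosIn (f : ℝ[X]) (S : Set ℂ) : Prop := ∀ z : ℂ, aeval z f = 0 → z ∈ S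

/-- The diagonal operator with sequence `g` is zero-sector reducing. -/
def ZeroSectorReducing (g : ℕ → ℝ) : Prop :=
  ∀ θ : ℝ, 0 < θ → θ < Real.pi / 2 → ∃ γ : ℝ, 0 ≤ γ ∧ γ < θ ∧
    ∀ f : ℝ[X], f ≠ 0 → ZerosIn f (Sector θ) → ZerosIn (diag g f) (Sector γ)

lemma coeff_diag (g : ℕ → ℝ) (f : ℝ[X]) (k : ℕ) : (diag g f).coeff k = g k * f.coeff k := by
  unfold diag
  rw [Polynomial.sum_def, Polynomial.finsetSum_coeff]
  simp only [coeff_monomial]
  rw [Finset.sum_ite_eq' f.support k]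
  split_ifs with h
  · rfl
  · rw [notMem_support_iff.mp h, mul_zero]

/-- The real inequality behind the discriminant. -/
lemma ineq (A B α : ℝ) (hA : 0 < A) (hAB : A < B) (hα : 0 < α) (h1 : α < 1 / (4 * B))
    (h2 : α < (B - A) ^ 2 / (4 * A * B * (A + B))) :
    4 * (1 - Real.exp (-(α * A))) * (1 - Real.exp (-(α * B))) <
      (1 - Real.exp (-(α * A)) * Real.exp (-(α * B))) ^ 2 := by
  have hB : 0 < B := hA.trans hAB
  set x := Real.exp (-(α * A)) with hx
  set y := Real.exp (-(α * B)) with hy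
  have hx0 : 0 < x := Real.exp_pos _
  have hy0 : 0 < y := Real.exp_pos _
  have hx1 : x < 1 := by
    rw [hx, ← Real.exp_zero]
    exact Real.exp_lt_exp.mpr (neg_lt_zero.mpr (mul_pos hα hA))
  have hy1 : y < 1 := by
    rw [hy, ← Real.exp_zero]
    exact Real.exp_lt_exp.mpr (neg_lt_zero.mpr (mul_pos hα hB))
  have hu : 1 - x ≤ α * A := by
    have := Real.add_one_le_exp (-(α * A)); rw [← hx] at this; linarith
  have hv : 1 - y ≤ α * B := by
    have := Real.add_one_le_exp (-(α * B)); rw [← hy] at this; linarith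
  -- x - y ≥ α (B - A) y
  have hd : α * (B - A) * y ≤ x - y := by
    have h := Real.add_one_le_exp (α * (B - A))
    have hxy : x = y * Real.exp (α * (B - A)) := by
      rw [hx, hy, ← Real.exp_add]; congr 1; ring
    have : y * (α * (B - A) + 1) ≤ y * Real.exp (α * (B - A)) :=
      mul_le_mul_of_nonneg_left h hy0.le
    rw [← hxy] at this
    linarith
  have hyy : 1 / 2 ≤ y ^ 2 := by
    have h3 : 1 - 2 * (α * B) ≤ y ^ 2 := by
      have := Real.add_one_le_exp (-(2 * (α * B)))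
      have e : Real.exp (-(2 * (α * B))) = y ^ 2 := by
        rw [hy, ← Real.exp_nat_mul]; congr 1; push_cast; ring
      rw [e] at this; linarith
    have h4 : α * B < 1 / 4 := by
      rw [lt_div_iff₀ (by positivity)] at h1; linarith
    linarith
  have hsq : α ^ 2 * (B - A) ^ 2 / 2 ≤ (x - y) ^ 2 := by
    have h5 : 0 ≤ α * (B - A) * y := by
      have : 0 < B - A := by linarith
      positivity
    have h6 : (α * (B - A) * y) ^ 2 ≤ (x - y) ^ 2 := pow_le_pow_left₀ h5 hd 2
    have h7 : (α * (B - A) * y) ^ 2 = (α * (B - A)) ^ 2 * y ^ 2 := by ring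
    have h8 : (α * (B - A)) ^ 2 * (1 / 2) ≤ (α * (B - A)) ^ 2 * y ^ 2 :=
      mul_le_mul_of_nonneg_left hyy (sq_nonneg _)
    nlinarith
  have hr : 2 * (1 - x) * (1 - y) * ((1 - x) + (1 - y)) < α ^ 2 * (B - A) ^ 2 / 2 := by
    have h9 : (1 - x) * (1 - y) ≤ (α * A) * (α * B) :=
      mul_le_mul hu hv (by linarith) (by positivity)
    have h10 : (1 - x) + (1 - y) ≤ α * (A + B) := by linarith
    have h11 : (1 - x) * (1 - y) * ((1 - x) + (1 - y)) ≤ (α * A) * (α * B) * (α * (A + B)) :=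
      mul_le_mul h9 h10 (by linarith) (by positivity)
    have h12 : α * (4 * A * B * (A + B)) < (B - A) ^ 2 := by
      rwa [lt_div_iff₀ (by positivity)] at h2
    have h13 : α ^ 2 * (α * (4 * A * B * (A + B))) < α ^ 2 * (B - A) ^ 2 :=
      mul_lt_mul_of_pos_left h12 (by positivity)
    nlinarith
  have hid : (1 - x * y) ^ 2 - 4 * (1 - x) * (1 - y) =
      (x - y) ^ 2 - 2 * (1 - x) * (1 - y) * ((1 - x) + (1 - y)) + ((1 - x) * (1 - y)) ^ 2 := by ring
  have hpos : 0 < ((1 - x) * (1 - y)) ^ 2 := by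
    have : 0 < (1 - x) * (1 - y) := mul_pos (by linarith) (by linarith)
    positivity
  nlinarith

/-- A real cubic all of whose complex zeros are real has non-negative discriminant. -/
lemma disc_nonneg (a b c d : ℝ) (hd : d ≠ 0) (q : ℝ[X])
    (hq : q = C d * X ^ 3 - C (3 * c) * X ^ 2 + C (3 * b) * X - C a)
    (hr : ∀ z : ℂ, aeval z q = 0 → z.im = 0) :
    (a * d - b * c) ^ 2 ≤ 4 * (b ^ 2 - a * c) * (c ^ 2 - b * d) := by
  have hdeg : q.natDegree = 3 := by
    rw [hq]; compute_degree!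
  have hq0 : q ≠ 0 := by
    intro h; rw [h] at hdeg; simp at hdeg
  have hlead : q.leadingCoeff = d := by
    unfold leadingCoeff
    rw [hdeg, hq]
    simp only [coeff_sub, coeff_add, coeff_C_mul, coeff_X_pow, coeff_X, coeff_C]
    norm_num
  set Q : ℂ[X] := q.map (algebraMap ℝ ℂ) with hQ
  have hQdeg : Q.natDegree = 3 := by rw [hQ, natDegree_map]; exact hdeg
  have hsplit : Q.roots.card = 3 := by
    rw [← hQdeg]
    exact (IsAlgClosed.splits Q).natDegree_eq_card_roots.symm
  have hprod := (IsAlgClosed.splits Q).eq_prod_roots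
  obtain ⟨z1, z2, z3, hz⟩ := Multiset.card_eq_three.mp hsplit
  have hreal : ∀ z ∈ Q.roots, z.im = 0 := by
    intro z hzr
    apply hr
    have := (mem_roots'.mp hzr).2
    rw [IsRoot.def, hQ, eval_map_algebraMap] at this
    exact this
  have h1 : z1.im = 0 := hreal z1 (by rw [hz]; simp)
  have h2 : z2.im = 0 := hreal z2 (by rw [hz]; simp)
  have h3 : z3.im = 0 := hreal z3 (by rw [hz]; simp)
  set r := z1.re
  set s := z2.re
  set t := z3.re
  have e1 : z1 = ((r : ℝ) : ℂ) := by apply Complex.ext <;> simp [r, h1]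
  have e2 : z2 = ((s : ℝ) : ℂ) := by apply Complex.ext <;> simp [s, h2]
  have e3 : z3 = ((t : ℝ) : ℂ) := by apply Complex.ext <;> simp [t, h3]
  have hlc : Q.leadingCoeff = ((d : ℝ) : ℂ) := by
    rw [hQ, leadingCoeff_map, hlead]; rfl
  have hfac : q = C d * ((X - C r) * (X - C s) * (X - C t)) := by
    apply Polynomial.map_injective (algebraMap ℝ ℂ) (algebraMap ℝ ℂ).injective
    rw [← hQ, hprod, hz, hlc, e1, e2, e3]
    simp only [Multiset.insert_eq_cons, Multiset.map_cons, Multiset.map_singleton,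
      Multiset.prod_cons, Multiset.prod_singleton, Polynomial.map_mul, Polynomial.map_sub,
      Polynomial.map_X, Polynomial.map_C]
    rw [mul_assoc (X - C ((algebraMap ℝ ℂ) r))]
    rfl
  have hexp : C d * ((X - C r) * (X - C s) * (X - C t)) =
      C d * X ^ 3 - C (d * (r + s + t)) * X ^ 2 + C (d * (r * s + s * t + t * r)) * X
        - C (d * (r * s * t)) := by
    simp only [C_mul, C_add]; ring
  rw [hfac, hexp] at hq
  have c0 := congrArg (fun p : ℝ[X] => p.coeff 0) hq
  have c1 := congrArg (fun p : ℝ[X] => p.coeff 1) hq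
  have c2 := congrArg (fun p : ℝ[X] => p.coeff 2) hq
  simp only [coeff_sub, coeff_add, coeff_C_mul, coeff_X_pow, coeff_X, coeff_C] at c0 c1 c2
  norm_num at c0 c1 c2
  have ha : a = d * (r * s * t) := by linarith
  have hb : b = d * (r * s + s * t + t * r) / 3 := by linarith
  have hc : c = d * (r + s + t) / 3 := by linarith
  have key : 4 * (b ^ 2 - a * c) * (c ^ 2 - b * d) - (a * d - b * c) ^ 2 =
      d ^ 4 / 27 * ((r - s) * (s - t) * (t - r)) ^ 2 := by
    rw [ha, hb, hc]; ring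
  have : 0 ≤ d ^ 4 / 27 * ((r - s) * (s - t) * (t - r)) ^ 2 := by positivity
  linarith

/-- For every real `p > 2` there is `α₀ > 0` such that for all `α` with `0 < α < α₀` the diagonal
operator with `γ_k = exp (-α k ^ p)` is not zero-sector reducing. -/
theorem result : ∀ p : ℝ, 2 < p → ∃ α₀ : ℝ, 0 < α₀ ∧ ∀ α : ℝ, 0 < α → α < α₀ →
    ¬ ZeroSectorReducing (fun k => Real.exp (-α * (k : ℝ) ^ p)) := by
  intro p hp
  set A : ℝ := (2 : ℝ) ^ p - 2 with hA
  set B : ℝ := (3 : ℝ) ^ p - 2 * (2 : ℝ) ^ p + 1 with hB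
  have hApos : 0 < A := by
    have : (2 : ℝ) ^ (1 : ℝ) < (2 : ℝ) ^ p :=
      Real.rpow_lt_rpow_of_exponent_lt (by norm_num) (by linarith)
    rw [Real.rpow_one] at this
    linarith
  have hAB : A < B := by
    have hconv := strictConvexOn_rpow (show (1 : ℝ) < p - 1 by linarith)
    have h := hconv.2 (show (1 : ℝ) ∈ Set.Ici (0 : ℝ) by norm_num)
      (show (3 : ℝ) ∈ Set.Ici (0 : ℝ) by norm_num) (by norm_num)
      (show (0 : ℝ) < 1 / 2 by norm_num) (show (0 : ℝ) < 1 / 2 by norm_num) (by norm_num)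
    have e : (1 / 2 : ℝ) • (1 : ℝ) + (1 / 2 : ℝ) • (3 : ℝ) = 2 := by
      simp only [smul_eq_mul]; norm_num
    rw [e] at h
    simp only [smul_eq_mul, Real.one_rpow] at h
    have h2 : (2 : ℝ) ^ p = 2 * (2 : ℝ) ^ (p - 1) := by
      rw [Real.rpow_sub_one (by norm_num)]; ring
    have h3 : (3 : ℝ) ^ p = 3 * (3 : ℝ) ^ (p - 1) := by
      rw [Real.rpow_sub_one (by norm_num)]; ring
    rw [hA, hB, h2, h3]
    linarith
  have hBpos : 0 < B := hApos.trans hAB
  refine ⟨min (1 / (4 * B)) ((B - A) ^ 2 / (4 * A * B * (A + B))), ?_, ?_⟩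
  · have : 0 < B - A := by linarith
    exact lt_min (by positivity) (by positivity)
  intro α hα hαlt hred
  have hα1 := lt_of_lt_of_le hαlt (min_le_left _ _)
  have hα2 := lt_of_lt_of_le hαlt (min_le_right _ _)
  have hin := ineq A B α hApos hAB hα hα1 hα2
  set g : ℕ → ℝ := fun k => Real.exp (-α * (k : ℝ) ^ p) with hg
  -- the test polynomial
  set f : ℝ[X] := (X - C 1) ^ 3 with hf
  have hfne : f ≠ 0 := pow_ne_zero _ (X_sub_C_ne_zero 1)
  have hfz : ∀ θ : ℝ, 0 < θ → ZerosIn f (Sector θ) := by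
    intro θ hθ z hz
    rw [hf] at hz
    simp only [map_pow, map_sub, aeval_X, map_one] at hz
    have : z - 1 = 0 := by simpa using hz
    have hz1 : z = 1 := by linear_combination this
    right
    rw [hz1]
    simp [hθ.le]
  have hreal : ∀ z : ℂ, aeval z (diag g f) = 0 → z.im = 0 := by
    intro z hz
    have harg : ∀ θ : ℝ, 0 < θ → z = 0 ∨ |z.arg| ≤ θ := by
      intro θ hθ
      have hθ' : 0 < min θ 1 := lt_min hθ one_pos
      obtain ⟨γ, _, hγ, hall⟩ := hred (min θ 1) hθ'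
        (lt_of_le_of_lt (min_le_right _ _) (by linarith [Real.pi_gt_three]))
      rcases hall f hfne (hfz _ hθ') z hz with h | h
      · exact Or.inl h
      · exact Or.inr (h.trans (hγ.le.trans (min_le_left _ _)))
    by_cases hz0 : z = 0
    · rw [hz0]; rfl
    · have h0 : |z.arg| ≤ 0 := le_of_forall_pos_le_add (fun ε hε => by
        rw [zero_add]
        exact (harg ε hε).resolve_left hz0)
      have h1 : z.arg = 0 := by
        have := le_antisymm h0 (abs_nonneg _)
        exact abs_eq_zero.mp this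
      exact (Complex.arg_eq_zero_iff.mp h1).2
  have hcoef : diag g f = C (g 3) * X ^ 3 - C (3 * g 2) * X ^ 2 + C (3 * g 1) * X - C (g 0) := by
    have hfe : f = X ^ 3 - C 3 * X ^ 2 + C 3 * X - C 1 := by
      rw [hf]
      have : (C 3 : ℝ[X]) = 3 := rfl
      rw [this, C_1]; ring
    ext k
    rw [coeff_diag, hfe]
    simp only [coeff_sub, coeff_add, coeff_C_mul, coeff_X_pow, coeff_X, coeff_C]
    rcases k with _ | _ | _ | _ | k
    · simp
    · simp; ring
    · simp; ring
    · simp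
    · simp
  have hdisc := disc_nonneg (g 0) (g 1) (g 2) (g 3) (Real.exp_pos _).ne' _ hcoef hreal
  have g0 : g 0 = 1 := by
    simp only [hg, Nat.cast_zero]
    rw [Real.zero_rpow (by linarith), mul_zero, Real.exp_zero]
  have g1 : g 1 = Real.exp (-α) := by
    simp only [hg, Nat.cast_one, Real.one_rpow, mul_one]
  have g2 : g 2 = Real.exp (-α) ^ 2 * Real.exp (-(α * A)) := by
    simp only [hg, Nat.cast_ofNat]
    rw [← Real.exp_nat_mul, ← Real.exp_add]
    congr 1; rw [hA]; push_cast; ring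
  have g3 : g 1 * g 3 = g 2 ^ 2 * Real.exp (-(α * B)) := by
    simp only [hg, Nat.cast_ofNat, Nat.cast_one, Real.one_rpow]
    rw [← Real.exp_nat_mul, ← Real.exp_add, ← Real.exp_add]
    congr 1; rw [hB]; push_cast; ring
  have g3' : g 0 * g 3 = g 1 * g 2 * (Real.exp (-(α * A)) * Real.exp (-(α * B))) := by
    have h1 : g 1 ≠ 0 := (Real.exp_pos _).ne'
    have : g 1 * (g 0 * g 3) = g 1 * (g 1 * g 2 * (Real.exp (-(α * A)) * Real.exp (-(α * B)))) := by
      calc g 1 * (g 0 * g 3) = g 0 * (g 1 * g 3) := by ring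
        _ = g 2 * g 2 * Real.exp (-(α * B)) := by rw [g3, g0]; ring
        _ = g 1 * (g 1 * g 2 * (Real.exp (-(α * A)) * Real.exp (-(α * B)))) := by
          nth_rewrite 1 [g2]
          rw [g1]; ring
    exact mul_left_cancel₀ h1 this
  set x := Real.exp (-(α * A))
  set y := Real.exp (-(α * B))
  have e1 : (g 0 * g 3 - g 1 * g 2) ^ 2 = (g 1 * g 2) ^ 2 * (1 - x * y) ^ 2 := by
    rw [g3']; ring
  have e2 : g 1 ^ 2 - g 0 * g 2 = g 1 ^ 2 * (1 - x) := by
    rw [g0, g2, g1]; ring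
  have e3 : g 2 ^ 2 - g 1 * g 3 = g 2 ^ 2 * (1 - y) := by
    rw [g3]; ring
  rw [e1, e2, e3] at hdisc
  have hpos : 0 < (g 1 * g 2) ^ 2 := by
    have h1 : 0 < g 1 := Real.exp_pos _
    have h2 : 0 < g 2 := Real.exp_pos _
    positivity
  have : (g 1 * g 2) ^ 2 * (4 * (1 - x) * (1 - y)) < (g 1 * g 2) ^ 2 * (1 - x * y) ^ 2 :=
    mul_lt_mul_of_pos_left hin hpos
  nlinarith

end Pool.Agent.Results.MP_f0d684_an.SmallAlphaFails
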